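import Pool.Agent.W_MP_d8b8b7_S.Transfer
import Pool.Agent.W_MP_d8b8b7_gt.Final

set_option autoImplicit false

/-!
# Donaldson's question: tamed implies compatible on every closed symplectic 4-manifold

`M` is a closed smooth 4-manifold (compact, Hausdorff, smooth atlas modelled on `ℝ⁴`), `Ω` a symplectic
form on `M`, `J` a smooth `Ω`-tame almost complex structure.  Then there is a symplectic form `Ω'` on
`M` compatible with `J`; if `b⁺(M) = 1` it can be chosen in the cohomology class of `Ω`.
-/

open scoped Manifold ContDiff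
open Pool.Agent.W_MP_d8b8b7_S

universe u

namespace Pool.Agent.Results.MP_d8b8b7_gt.TamedImpliesCompatible

/-- tamed implies compatible, with the class condition for `b⁺ = 1` -/
theorem result (M : Type u) [TopologicalSpace M] [ChartedSpace E4 M] [IsManifold I4 ∞ M]
    [CompactSpace M] [T2Space M] (Ω : Form M 2) (J : EndoField M)
    (hΩ : IsSymplectic Ω) (hJ : IsAlmostComplex J) (ht : Tame Ω J) :
    ∃ Ω' : Form M 2, IsSymplectic Ω' ∧ Compatible Ω' J ∧ (BPlusOne Ω → Cohomologous Ω' Ω) :=
  main_of Pool.Agent.W_MP_d8b8b7_gt.main_theorem M Ω J hΩ hJ ht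

end Pool.Agent.Results.MP_d8b8b7_gt.TamedImpliesCompatible
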